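import Pool.Agent.Helper35.CWS.StA

/-!
# Project CWS, module CHB: start at a vertex, constant attaching map
-/

set_option autoImplicit false

namespace Pool.Agent.Helper3.CWS

open Set Topology Metric Pool.Agent.Helper35.CWS

private noncomputable def fl {m : ℕ} (w : Fin m → ℝ) : Fin m → ℝ := ((1 - ‖w‖) * ‖w‖⁻¹) • w

private theorem fl_norm {m : ℕ} {w : Fin m → ℝ} (h0 : w ≠ 0) (h1 : ‖w‖ ≤ 1) :
    ‖fl w‖ = 1 - ‖w‖ := by
  have hp : 0 < ‖w‖ := norm_pos_iff.2 h0
  have hc : 0 ≤ (1 - ‖w‖) * ‖w‖⁻¹ := mul_nonneg (by linarith) (inv_nonneg.2 hp.le)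
  rw [fl, norm_smul, Real.norm_eq_abs, abs_of_nonneg hc, mul_assoc, inv_mul_cancel₀ hp.ne',
    mul_one]

private theorem fl_fl {m : ℕ} {z : Fin m → ℝ} (h0 : z ≠ 0) (h1 : ‖z‖ < 1) : fl (fl z) = z := by
  have hp : 0 < ‖z‖ := norm_pos_iff.2 h0
  have hn := fl_norm h0 h1.le
  rw [fl, hn, fl, smul_smul]
  have h2 : (1 - (1 - ‖z‖)) * (1 - ‖z‖)⁻¹ * ((1 - ‖z‖) * ‖z‖⁻¹) = 1 := by
    have h3 : 1 - ‖z‖ ≠ 0 := by linarith
    field_simp
    ring
  rw [h2, one_smul]

private theorem fl_inj {m : ℕ} {w w' : Fin m → ℝ} (h0 : w ≠ 0) (h0' : w' ≠ 0)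
    (h1 : ‖w‖ ≤ 1 / 2) (h1' : ‖w'‖ ≤ 1 / 2) (h : fl w = fl w') : w = w' := by
  rw [← fl_fl h0 (by linarith), ← fl_fl h0' (by linarith), h]

private theorem fl_cont {m : ℕ} {w : Fin m → ℝ} (h0 : w ≠ 0) : ContinuousAt (fl (m := m)) w := by
  unfold fl
  have hp : ‖w‖ ≠ 0 := norm_ne_zero_iff.2 h0
  exact ((continuousAt_const.sub continuous_norm.continuousAt).mul
    (continuous_norm.continuousAt.inv₀ hp)).smul continuousAt_id

theorem hCHB : StINI → StCHB := by
  classical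
  intro hI Y _ _ m Q y₀ V hm hQ hS hV hy₀
  have : Nonempty (Fin m) := ⟨⟨0, hm⟩⟩
  obtain ⟨v, hv⟩ : ∃ v : Fin m → ℝ, v = fun _ => 1 := ⟨_, rfl⟩
  have hvn : ‖v‖ = 1 := by
    rw [hv, pi_norm_const]
    simp
  have hvS : v ∈ sphere (0 : Fin m → ℝ) 1 := by simpa using hvn
  have hv0 : v ≠ 0 := by
    rw [← norm_ne_zero_iff, hvn]
    exact one_ne_zero
  have hnot : ∀ z : Fin m → ℝ, ‖z‖ < 1 → Q z ≠ y₀ := by
    intro z hz h
    exact hQ.ne z (by simpa using hz) v hvS (by rw [h, hS v hvS])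
  obtain ⟨E, hE⟩ : ∃ E : (Fin m → ℝ) → Y, E = fun w => if w = 0 then y₀ else Q (fl w) := ⟨_, rfl⟩
  have hE0 : E 0 = y₀ := by rw [hE]; simp
  have hE1 : ∀ w, w ≠ 0 → E w = Q (fl w) := by
    intro w hw
    rw [hE]
    simp [hw]
  have hflball : ∀ w : Fin m → ℝ, w ≠ 0 → ‖w‖ ≤ 1 / 2 → ‖fl w‖ < 1 := by
    intro w hw hw2
    rw [fl_norm hw (by linarith)]
    have := norm_pos_iff.2 hw
    linarith
  -- continuity
  have hcont : ContinuousOn E (closedBall 0 (1 / 2)) := by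
    intro w hw
    have hw2 : ‖w‖ ≤ 1 / 2 := by simpa using hw
    by_cases h0 : w = 0
    · subst h0
      rw [ContinuousWithinAt, hE0, _root_.tendsto_nhds]
      intro O hO hyO
      have hC : IsCompact (closedBall (0 : Fin m → ℝ) 1 ∩ Q ⁻¹' Oᶜ) := by
        have := hQ.cont.preimage_isClosed_of_isClosed isClosed_closedBall hO.isClosed_compl
        exact (isCompact_closedBall (0 : Fin m → ℝ) 1).of_isClosed_subset this inter_subset_left
      obtain ⟨δ, hδ, hδ2⟩ : ∃ δ : ℝ, 0 < δ ∧ ∀ z : Fin m → ℝ, ‖z‖ ≤ 1 → 1 - δ < ‖z‖ → Q z ∈ O := by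
        rcases (closedBall (0 : Fin m → ℝ) 1 ∩ Q ⁻¹' Oᶜ).eq_empty_or_nonempty with h | h
        · refine ⟨1, one_pos, fun z hz _ => ?_⟩
          by_contra hcon
          have : z ∈ closedBall (0 : Fin m → ℝ) 1 ∩ Q ⁻¹' Oᶜ := ⟨by simpa using hz, hcon⟩
          rw [h] at this
          exact this
        · obtain ⟨z₁, hz₁, hmax⟩ := hC.exists_isMaxOn h continuous_norm.continuousOn
          have h1 : ‖z₁‖ ≤ 1 := by simpa using hz₁.1
          have h2 : ‖z₁‖ ≠ 1 := by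
            intro h3
            apply hz₁.2
            rw [hS z₁ (by simpa using h3)]
            exact hyO
          have h3 : ‖z₁‖ < 1 := lt_of_le_of_ne h1 h2
          refine ⟨1 - ‖z₁‖, by linarith, fun z hz hz2 => ?_⟩
          by_contra hcon
          have h4 : z ∈ closedBall (0 : Fin m → ℝ) 1 ∩ Q ⁻¹' Oᶜ := ⟨by simpa using hz, hcon⟩
          have h5 : ‖z‖ ≤ ‖z₁‖ := hmax h4
          linarith
      have h6 : ball (0 : Fin m → ℝ) δ ∈ 𝓝 (0 : Fin m → ℝ) := ball_mem_nhds _ hδ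
      filter_upwards [nhdsWithin_le_nhds h6, self_mem_nhdsWithin] with z hz hz'
      have hz1 : ‖z‖ < δ := by simpa using hz
      have hz2 : ‖z‖ ≤ 1 / 2 := by simpa using hz'
      by_cases hz0 : z = 0
      · rw [mem_preimage, hz0, hE0]
        exact hyO
      · rw [mem_preimage, hE1 z hz0]
        apply hδ2
        · exact (hflball z hz0 hz2).le
        · rw [fl_norm hz0 (by linarith)]
          linarith
    · have h1 : ContinuousWithinAt (fun w => Q (fl w)) (closedBall 0 (1 / 2) ∩ {0}ᶜ) w := by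
        have h2 : fl w ∈ closedBall (0 : Fin m → ℝ) 1 := by
          simpa using (hflball w h0 hw2).le
        refine ContinuousWithinAt.comp (t := closedBall (0 : Fin m → ℝ) 1) (hQ.cont _ h2)
          (fl_cont h0).continuousWithinAt ?_
        intro z hz
        have hz2 : ‖z‖ ≤ 1 / 2 := by simpa using hz.1
        simpa using (hflball z hz.2 hz2).le
      have h3 : ContinuousWithinAt (fun w => Q (fl w)) (closedBall 0 (1 / 2)) w := by
        rwa [continuousWithinAt_inter (isOpen_compl_singleton.mem_nhds h0)] at h1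
      refine h3.congr_of_eventuallyEq ?_ (hE1 w h0)
      have h4 : ({0}ᶜ : Set (Fin m → ℝ)) ∈ 𝓝 w := isOpen_compl_singleton.mem_nhds h0
      filter_upwards [nhdsWithin_le_nhds h4] with z hz
      exact hE1 z hz
  -- injectivity
  have hinj : InjOn E (closedBall 0 (1 / 2)) := by
    intro w hw w' hw' h
    have hw2 : ‖w‖ ≤ 1 / 2 := by simpa using hw
    have hw2' : ‖w'‖ ≤ 1 / 2 := by simpa using hw'
    by_cases h0 : w = 0
    · by_cases h0' : w' = 0
      · rw [h0, h0']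
      · rw [h0, hE0, hE1 w' h0'] at h
        exact absurd h.symm (hnot _ (hflball w' h0' hw2'))
    · by_cases h0' : w' = 0
      · rw [h0', hE0, hE1 w h0] at h
        exact absurd h (hnot _ (hflball w h0 hw2))
      · rw [hE1 w h0, hE1 w' h0'] at h
        have h3 := hQ.inj (by simpa using hflball w h0 hw2) (by simpa using hflball w' h0' hw2') h
        exact fl_inj h0 h0' hw2 hw2' h3
  have hEA : E '' closedBall 0 (1 / 2) ⊆ Q '' closedBall 0 1 := by
    rintro _ ⟨w, hw, rfl⟩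
    have hw2 : ‖w‖ ≤ 1 / 2 := by simpa using hw
    by_cases h0 : w = 0
    · rw [h0, hE0]
      exact ⟨v, by simpa using hvn.le, hS v hvS⟩
    · rw [hE1 w h0]
      exact ⟨fl w, by simpa using (hflball w h0 hw2).le, rfl⟩
  obtain ⟨W, hW⟩ : ∃ W : Set Y, W = V \ (Q '' closedBall 0 (3 / 4)) := ⟨_, rfl⟩
  have hsub : closedBall (0 : Fin m → ℝ) (3 / 4) ⊆ closedBall 0 1 :=
    closedBall_subset_closedBall (by norm_num)
  have hWo : IsOpen W := by
    rw [hW]
    exact hV.sdiff (((isCompact_closedBall (0 : Fin m → ℝ) (3 / 4)).image_of_continuousOn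
      (hQ.cont.mono hsub)).isClosed)
  have hyW : y₀ ∈ W := by
    rw [hW]
    refine ⟨hy₀, ?_⟩
    rintro ⟨z, hz, h⟩
    have hz2 : ‖z‖ ≤ 3 / 4 := by simpa using hz
    exact hnot z (by linarith) h
  have hAW : Q '' closedBall 0 1 ∩ W ⊆ E '' ball 0 (1 / 4) := by
    rintro _ ⟨⟨z, hz, rfl⟩, hz'⟩
    have hz1 : ‖z‖ ≤ 1 := by simpa using hz
    rw [hW] at hz'
    have hz2 : 3 / 4 < ‖z‖ := by
      by_contra hcon
      exact hz'.2 ⟨z, by simpa using not_lt.1 hcon, rfl⟩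
    by_cases h1 : ‖z‖ = 1
    · refine ⟨0, by simp, ?_⟩
      rw [hE0, hS z (by simpa using h1)]
    · have h2 : ‖z‖ < 1 := lt_of_le_of_ne hz1 h1
      have h3 : z ≠ 0 := by
        rintro rfl
        rw [norm_zero] at hz2
        linarith
      have h4 := fl_norm h3 hz1
      have h5 : fl z ≠ 0 := by
        rw [← norm_ne_zero_iff, h4]
        linarith
      refine ⟨fl z, ?_, ?_⟩
      · rw [mem_ball_zero_iff, h4]
        linarith
      · rw [hE1 _ h5, fl_fl h3 h2]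
  obtain ⟨Ψ, hΨ1, hΨ2⟩ := hI Y m (Q '' closedBall 0 1) W E (closedBall 0 (1 / 2)) (ball 0 (1 / 4))
    v (1 / 4) (by norm_num) (isCompact_closedBall _ _) hcont hinj hEA
    (ball_subset_closedBall.trans (closedBall_subset_closedBall (by norm_num))) hAW hv0
    (by
      intro w hw s hs
      have hw2 : ‖w‖ < 1 / 4 := by simpa using hw
      rw [mem_closedBall_zero_iff]
      have h1 : ‖s • v‖ ≤ 1 / 4 := by
        rw [norm_smul, hvn, mul_one, Real.norm_eq_abs, abs_of_nonneg hs.1]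
        exact hs.2
      have h2 := norm_add_le w (s • v)
      linarith)
  refine ⟨W, 1 / 4, Ψ, hWo, ?_, hyW, hΨ1, ?_⟩
  · rw [hW]
    exact sdiff_subset
  · intro s hs
    exact hΨ2 y₀ ⟨⟨v, by simpa using hvn.le, hS v hvS⟩, hyW⟩ s hs

end Pool.Agent.Helper3.CWS
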